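import Mathlib
import Pool.Agent.Burnside.Infinite
import Pool.Agent.MP_67fb03_al.Defs
import Pool.Agent.MP_67fb03_al.Application

/-!
Problem MP_67fb03_al, question Q1, answered in the affirmative for every prime `p`.

The group is a finitely generated group inside an extension of an abelian by abelian by bounded
exponent group, built from an infinite finitely generated group of bounded exponent; the latter
is constructed from scratch in `Pool.Agent.Burnside`.
-/

namespace Pool.Agent.Results.MP_67fb03_al.Answer

open Pool.Agent.MP_67fb03_al

universe u

theorem result (p : ℕ) (hp : p.Prime) :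
    ∃ (G : Type) (_ : Group G), Group.FG G ∧ NoFreeSubsemigroup G ∧
      (∃ w : FreeGroup ℕ, w ≠ 1 ∧ IsLaw w G) ∧
      ∀ (A : Type u) [Group A], InApA p A → InVar G A := by
  refine application ⟨10 ^ 30 + 1, by norm_num, ?_⟩ p hp
  exact Pool.Agent.Burnside.infinite_burnside (10 ^ 30 + 1) (by decide) (by norm_num)

end Pool.Agent.Results.MP_67fb03_al.Answer
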